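import Pool.Agent.H38.ER.Defs

/-!
Hadamard decomposition of rational matrices.
-/

namespace Pool.Agent.H38.Had

open Pool.Agent.H38.NP

/-- An instance `(m, n, M, k₁, k₂)`: `M` is a list of `m` rows of `n` rationals. -/
def Inst (p : ℕ × ℕ × List (List ℚ) × Bin × Bin) : Prop :=
  p.2.2.1.length = p.1 ∧ ∀ r ∈ p.2.2.1, r.length = p.2.1

/-- `M` is the entrywise product of two real matrices of ranks `k₁` and `k₂`. -/
def HasHD (p : ℕ × ℕ × List (List ℚ) × Bin × Bin) : Prop :=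
  ∃ A B : Matrix (Fin p.1) (Fin p.2.1) ℝ, A.rank = p.2.2.2.1.val ∧ B.rank = p.2.2.2.2.val ∧
    ∀ i j, A i j * B i j = (((p.2.2.1.getD i []).getD j 0 : ℚ) : ℝ)

end Pool.Agent.H38.Had
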