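import Pool.Agent.H38.Had.Defs
import Pool.Agent.H38.ER.Strong3

/-!
Rank-one tensors and harmonic quadruples.
-/

namespace Pool.Agent.H38.Had

open Module

theorem fac {m n r : ℕ} (A : Matrix (Fin m) (Fin n) ℝ) (h : A.rank = r) :
    ∃ (X : Fin m → Fin r → ℝ) (Y : Fin r → Fin n → ℝ), ∀ i j, A i j = ∑ s, X i s * Y s j := by
  rw [Matrix.rank_eq_finrank_span_cols] at h
  let b := finBasisOfFinrankEq ℝ _ h
  refine ⟨fun i s => (b s).1 i, fun s j => b.repr ⟨A.col j, Submodule.subset_span ⟨j, rfl⟩⟩ s,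
    fun i j => ?_⟩
  have := congrArg (fun z => z.1 i) (b.sum_repr ⟨A.col j, Submodule.subset_span ⟨j, rfl⟩⟩)
  simp only [Submodule.coe_sum, Finset.sum_apply, Submodule.coe_smul, Pi.smul_apply, smul_eq_mul,
    Matrix.col_apply] at this
  simp only [← this, mul_comm]

theorem dec {m n r r' : ℕ} (A B : Matrix (Fin m) (Fin n) ℝ) (h : A.rank = r) (h' : B.rank = r') :
    ∃ (a : Fin m → Fin r → ℝ) (x : Fin m → Fin r' → ℝ) (D : (Fin r × Fin r' → ℝ) →ₗ[ℝ] (Fin n → ℝ)),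
      ∀ i, D (fun z => a i z.1 * x i z.2) = fun j => A i j * B i j := by
  obtain ⟨a, Y, e⟩ := fac A h
  obtain ⟨x, Y', e'⟩ := fac B h'
  refine ⟨a, x, Matrix.vecMulLinear (Matrix.of fun z j => Y z.1 j * Y' z.2 j), fun i => funext fun j => ?_⟩
  simp only [Matrix.vecMulLinear_apply, Matrix.vecMul, dotProduct, Matrix.of_apply, e, e',
    Fintype.sum_prod_type, Finset.sum_mul_sum]
  exact Finset.sum_congr rfl fun _ _ => Finset.sum_congr rfl fun _ _ => by ring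

theorem le_of_id {n : ℕ} {W : Type} [AddCommGroup W] [Module ℝ W] [Module.Finite ℝ W]
    (D : W →ₗ[ℝ] (Fin n → ℝ)) (h : ∀ j, ∃ w, D w = Pi.single j 1) :
    Function.Surjective D ∧ n ≤ finrank ℝ W := by
  have s : Function.Surjective D := by
    choose w hw using h
    intro z
    refine ⟨∑ j, z j • w j, ?_⟩
    simp only [map_sum, map_smul, hw]
    ext i; simp [Pi.single_apply]
  refine ⟨s, ?_⟩
  have := D.finrank_range_le
  rwa [LinearMap.range_eq_top.2 s, finrank_top, finrank_fin_fun] at this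

abbrev V2 := Fin 2 → ℝ

def dt (a b : V2) : ℝ := a 0 * b 1 - a 1 * b 0

theorem ne2 {a : V2} : a ≠ 0 ↔ a 0 ≠ 0 ∨ a 1 ≠ 0 := by
  simp [funext_iff, Fin.forall_fin_two, imp_iff_not_or]

theorem core {m k : ℕ} (hk : 0 < k) (M : ℕ → ℕ → ℝ) (ρ : ℕ → ℕ) (A B : Matrix (Fin m) (Fin (2 * k)) ℝ)
    (h : A.rank = 2) (h' : B.rank = k) (e : ∀ i j, A i j * B i j = M i j)
    (hρ : ∀ j < 2 * k, ρ j < m ∧ ∀ j' < 2 * k, M (ρ j) j' = if j' = j then 1 else 0) :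
    ∃ (a : ℕ → V2) (x : ℕ → Fin k → ℝ), (∀ r < m, ∀ r' < m, ∀ r'' < m, ∀ c c' c'' : ℝ,
      (∀ j < 2 * k, c * M r j + c' * M r' j + c'' * M r'' j = 0) ↔
        ∀ s t, c * (a r s * x r t) + c' * (a r' s * x r' t) + c'' * (a r'' s * x r'' t) = 0) ∧
      ∀ b : V2, b ≠ 0 → ∃ j < 2 * k, dt (a (ρ j)) b ≠ 0 := by
  obtain ⟨a, x, D, hD⟩ := dec A B h h'
  have id : ∀ j : Fin (2 * k), D (fun z => a ⟨ρ j, (hρ j j.2).1⟩ z.1 * x ⟨ρ j, (hρ j j.2).1⟩ z.2) =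
      Pi.single j 1 := fun j => by
    rw [hD]; ext j'; simp [e, (hρ j j.2).2 j' j'.2, Pi.single_apply, Fin.ext_iff]
  have inj : Function.Injective D := (LinearMap.injective_iff_surjective_of_finrank_eq_finrank
    (by simp)).2 (le_of_id D fun j => ⟨_, id j⟩).1
  refine ⟨fun r => if h : r < m then a ⟨r, h⟩ else 0, fun r => if h : r < m then x ⟨r, h⟩ else 0,
    fun r hr r' hr' r'' hr'' c c' c'' => ?_, fun b hb => ?_⟩
  · simp only [dif_pos hr, dif_pos hr', dif_pos hr'']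
    have := (map_eq_zero_iff D inj (x := c • (fun z => a ⟨r, hr⟩ z.1 * x ⟨r, hr⟩ z.2) +
      c' • (fun z => a ⟨r', hr'⟩ z.1 * x ⟨r', hr'⟩ z.2) +
      c'' • fun z => a ⟨r'', hr''⟩ z.1 * x ⟨r'', hr''⟩ z.2))
    simp only [map_add, map_smul, hD, e, funext_iff, Pi.add_apply, Pi.smul_apply, smul_eq_mul,
      Pi.zero_apply, Prod.forall, Fin.forall_iff (n := 2 * k)] at this
    exact this
  · by_contra n
    push Not at n
    let E : (Fin k → ℝ) →ₗ[ℝ] (Fin 2 × Fin k → ℝ) :=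
      LinearMap.pi fun z => b z.1 • LinearMap.proj z.2
    have := (le_of_id (D ∘ₗ E) fun j => ?_).2
    · simp at this; omega
    have z := n j j.2
    rw [dif_pos (hρ j j.2).1] at z
    obtain ⟨κ, hκ⟩ : ∃ κ : ℝ, ∀ s, a ⟨ρ j, (hρ j j.2).1⟩ s = κ * b s := by
      rcases ne2.1 hb with h | h
      · exact ⟨_ / b 0, Fin.forall_fin_two.2 ⟨(div_mul_cancel₀ _ h).symm, by
          unfold dt at z; field_simp; linear_combination -z⟩⟩
      · exact ⟨_ / b 1, Fin.forall_fin_two.2 ⟨by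
          unfold dt at z; field_simp; linear_combination z, (div_mul_cancel₀ _ h).symm⟩⟩
    refine ⟨κ • x ⟨ρ j, (hρ j j.2).1⟩, ?_⟩
    rw [← id j, LinearMap.comp_apply]
    congr 1; ext z; simp [E, hκ]; ring

theorem sum1 {ι : Type} {a a' a'' : V2} {x x' x'' : ι → ℝ}
    (h : ∀ s t, a'' s * x'' t = a s * x t + a' s * x' t) (hd : dt a a' ≠ 0) :
    ∃ μ ν : ℝ, x = μ • x'' ∧ x' = ν • x'' ∧ (x'' ≠ 0 → ∀ s, a'' s = μ * a s + ν * a' s) := by
  have e : ∀ t, x t = dt a'' a' / dt a a' * x'' t ∧ x' t = dt a a'' / dt a a' * x'' t := fun t => by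
    constructor <;> field_simp <;> unfold dt
    · linear_combination a' 0 * h 1 t - a' 1 * h 0 t
    · linear_combination a 1 * h 0 t - a 0 * h 1 t
  refine ⟨_, _, funext fun t => (e t).1, funext fun t => (e t).2, fun n s => ?_⟩
  obtain ⟨t, ht⟩ := Function.ne_iff.1 n
  exact mul_right_cancel₀ ht (by rw [h, (e t).1, (e t).2]; ring)

theorem sum0 {ι : Type} {a a' a'' : V2} {x x' x'' : ι → ℝ}
    (h : ∀ s t, a'' s * x'' t = a s * x t + a' s * x' t) (hd : dt a a' = 0) (n : x'' ≠ 0) :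
    dt a a'' = 0 := by
  obtain ⟨t, ht⟩ := Function.ne_iff.1 n
  refine mul_right_cancel₀ ht ?_
  unfold dt at *
  linear_combination a 0 * h 1 t - a 1 * h 0 t + x' t * hd

def Hm (a b c d : V2) : Prop := dt a b ≠ 0 ∧ ∃ c0 c1 c2 c3 : ℝ, c0 ≠ 0 ∧ c1 ≠ 0 ∧ c2 ≠ 0 ∧ c3 ≠ 0 ∧
  ∀ s, c2 * c s = c0 * a s + c1 * b s ∧ c3 * d s = c0 * a s - c1 * b s

def Gt (a b c d : V2) : Prop := Hm a b c d ∨ (dt a b = 0 ∧ dt a c = 0 ∧ dt a d = 0)

theorem line {ι : Type} {a0 a1 a2 a3 : V2} {x0 x1 x2 x3 : ι → ℝ} (n0 : x0 ≠ 0) (n1 : x1 ≠ 0)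
    (n2 : x2 ≠ 0) (n3 : x3 ≠ 0) (h : ∀ s t, a2 s * x2 t = a0 s * x0 t + a1 s * x1 t)
    (h' : ∀ s t, a3 s * x3 t = a0 s * x0 t + (-a1) s * x1 t) : Gt a0 a1 a2 a3 := by
  have e : dt a0 (-a1) = -dt a0 a1 := by simp [dt]; ring
  by_cases d : dt a0 a1 = 0
  · exact .inr ⟨d, sum0 h d n2, sum0 h' (by rw [e, d, neg_zero]) n3⟩
  obtain ⟨μ, ν, e0, e1, e2⟩ := sum1 h d
  obtain ⟨μ', ν', f0, f1, f2⟩ := sum1 h' (by rwa [e, neg_ne_zero])
  have m : μ ≠ 0 := by rintro rfl; simp [e0] at n0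
  have m' : μ' ≠ 0 := by rintro rfl; simp [f0] at n0
  have v : ν ≠ 0 := by rintro rfl; simp [e1] at n1
  obtain ⟨t, ht⟩ := Function.ne_iff.1 n3
  have k : μ * ν' = μ' * ν := mul_right_cancel₀ ht (by
    have a := congrFun (e0.symm.trans f0) t
    have b := congrFun (e1.symm.trans f1) t
    simp only [Pi.smul_apply, smul_eq_mul] at a b
    linear_combination ν * a - μ * b)
  exact .inl ⟨d, μ * μ', μ' * ν, μ', μ, by positivity, by positivity, m', m, fun s =>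
    ⟨by rw [e2 n2]; ring, by rw [f2 n3]; simp only [Pi.neg_apply]; linear_combination -a1 s * k⟩⟩

theorem dt_tr {a b c : V2} (hb : b ≠ 0) (h : dt a b = 0) (h' : dt c b = 0) : dt a c = 0 := by
  unfold dt at *; rcases ne2.1 hb with k | k <;> grind

theorem par {a b : V2} (ha : a ≠ 0) (hb : b ≠ 0) (h : dt a b = 0) :
    ∃ κ : ℝ, κ ≠ 0 ∧ ∀ s, a s = κ * b s := by
  obtain ⟨κ, hκ⟩ : ∃ κ : ℝ, ∀ s, a s = κ * b s := by
    unfold dt at h
    rcases ne2.1 hb with k | k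
    · exact ⟨_ / b 0, Fin.forall_fin_two.2 ⟨(div_mul_cancel₀ _ k).symm, by
        field_simp; linear_combination -h⟩⟩
    · exact ⟨_ / b 1, Fin.forall_fin_two.2 ⟨by
        field_simp; linear_combination h, (div_mul_cancel₀ _ k).symm⟩⟩
  exact ⟨κ, by rintro rfl; exact ha (funext fun s => by simp [hκ]), hκ⟩

theorem Gt.scale {a b c d a' b' c' d' : V2} {k0 k1 k2 k3 : ℝ} (h : Gt a b c d) (n0 : k0 ≠ 0)
    (n1 : k1 ≠ 0) (n2 : k2 ≠ 0) (n3 : k3 ≠ 0) (e0 : ∀ s, a s = k0 * a' s) (e1 : ∀ s, b s = k1 * b' s)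
    (e2 : ∀ s, c s = k2 * c' s) (e3 : ∀ s, d s = k3 * d' s) : Gt a' b' c' d' := by
  simp only [Gt, Hm, dt, e0, e1, e2, e3] at h ⊢
  rcases h with ⟨h, c0, c1, c2, c3, m0, m1, m2, m3, e⟩ | h
  · exact .inl ⟨by grind, c0 * k0, c1 * k1, c2 * k2, c3 * k3, by positivity, by positivity,
      by positivity, by positivity, fun s => by have := e s; constructor <;> linarith⟩
  · exact .inr (by grind)

end Pool.Agent.H38.Had
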