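import Pool.Agent.H38.Had.Lin
import Pool.Agent.H38.ER.Big

/-!
Systems of harmonic quadruples as Hadamard decompositions.
-/

namespace Pool.Agent.H38.Had

open Module Pool.Agent.H38.NP Pool.Agent.H38.ER

def lab (L : List Q4) (p : ℕ) : ℕ := if p % 4 = 0 then (L.getD (p / 12) (0, 0, 0, 0)).1 else
  if p % 4 = 1 then (L.getD (p / 12) (0, 0, 0, 0)).2.1 else
  if p % 4 = 2 then (L.getD (p / 12) (0, 0, 0, 0)).2.2.1 else (L.getD (p / 12) (0, 0, 0, 0)).2.2.2

def vec (p j : ℕ) : ℤ := if j / 2 = p / 4 then (if j % 2 = 0 then (if p % 4 = 1 then 0 else 1) else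
  if p % 4 = 0 then 0 else if p % 4 = 3 then -1 else 1) else 0

def ent (L : List Q4) (r j : ℕ) : ℤ := vec (r / (12 * L.length)) j +
  if lab L (r / (12 * L.length)) = lab L (r % (12 * L.length)) ∧
    r / (12 * L.length) / 4 ≠ r % (12 * L.length) / 4 then vec (r % (12 * L.length)) j else 0

def mat (L : List Q4) : ℕ × ℕ × List (List ℚ) × Bin × Bin :=
  (12 * L.length * (12 * L.length), 2 * (3 * L.length),
    (List.range (12 * L.length * (12 * L.length))).map fun r =>
      (List.range (2 * (3 * L.length))).map fun j => (ent L r j : ℚ), ⟨2⟩, ⟨3 * L.length⟩)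

theorem pt_mat : PT mat := by unfold mat ent vec lab; fun_prop

theorem mat_inst (L) : Inst (mat L) := by simp [Inst, mat]

theorem mat_iff (L) : HasHD (mat L) ↔ ∃ A B : Matrix (Fin (12 * L.length * (12 * L.length)))
    (Fin (2 * (3 * L.length))) ℝ, A.rank = 2 ∧ B.rank = 3 * L.length ∧
      ∀ i j, A i j * B i j = (ent L i j : ℝ) :=
  exists₂_congr fun A B => and_congr_right fun _ => and_congr_right fun _ =>
    forall₂_congr fun ⟨i, hi⟩ ⟨j, hj⟩ => by
      simp only [mat] at hi hj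
      simp [mat, List.getD_eq_getElem?_getD, hi, hj]

def WH (L : List Q4) : Prop := ∃ A : ℕ → V2, (∀ s, A s ≠ 0) ∧
  (∀ q ∈ L, Gt (A q.1) (A q.2.1) (A q.2.2.1) (A q.2.2.2)) ∧
    ∀ b ≠ 0, ∃ q ∈ L, dt (A q.1) b ≠ 0 ∨ dt (A q.2.1) b ≠ 0

def SH (L : List Q4) : Prop := ∃ A : ℕ → V2, ∀ q ∈ L, Hm (A q.1) (A q.2.1) (A q.2.2.1) (A q.2.2.2)

variable {L : List Q4}

theorem row {P p q : ℕ} (hp : p < P) (hq : q < P) :
    P * p + q < P * P ∧ (P * p + q) / P = p ∧ (P * p + q) % P = q :=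
  ⟨by nlinarith, by rw [Nat.mul_add_div (by omega), Nat.div_eq_of_lt hq, add_zero],
    by rw [Nat.mul_add_mod, Nat.mod_eq_of_lt hq]⟩

theorem ent_dg {p} (hp : p < 12 * L.length) (j) : ent L (12 * L.length * p + p) j = vec p j := by
  simp [ent, (row hp hp).2]

theorem ent_gl {p q} (hp : p < 12 * L.length) (hq : q < 12 * L.length) (e : lab L p = lab L q)
    (n : p / 4 ≠ q / 4) (j) : ent L (12 * L.length * p + q) j = vec p j + vec q j := by
  simp [ent, (row hp hq).2, e, n]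

theorem vec_ne (p) : ∃ j, j / 2 = p / 4 ∧ vec p j ≠ 0 :=
  ⟨2 * (p / 4) + if p % 4 = 1 then 1 else 0, by split_ifs <;> omega, by
    unfold vec; split_ifs <;> omega⟩

theorem vec_id {j j'} : vec (4 * (j / 2) + j % 2) j' = if j' = j then 1 else 0 := by
  unfold vec; split_ifs <;> omega

theorem labs (i) : lab L (4 * i) = (L.getD (i / 3) (0, 0, 0, 0)).1 ∧
    lab L (4 * i + 1) = (L.getD (i / 3) (0, 0, 0, 0)).2.1 ∧
    lab L (4 * i + 2) = (L.getD (i / 3) (0, 0, 0, 0)).2.2.1 ∧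
    lab L (4 * i + 3) = (L.getD (i / 3) (0, 0, 0, 0)).2.2.2 := by
  simp (disch := omega) only [lab, if_pos, if_neg, show 4 * i / 12 = i / 3 by omega,
    show (4 * i + 1) / 12 = i / 3 by omega, show (4 * i + 2) / 12 = i / 3 by omega,
    show (4 * i + 3) / 12 = i / 3 by omega, and_self]

theorem mat_s (h0 : 0 < L.length) (h : HasHD (mat L)) : WH L := by
  classical
  obtain ⟨A, B, h1, h2, h3⟩ := (mat_iff L).1 h
  obtain ⟨a, x, R, N⟩ := core (by omega) (fun r j => (ent L r j : ℝ))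
    (fun j => 12 * L.length * (4 * (j / 2) + j % 2) + (4 * (j / 2) + j % 2)) A B h1 h2 h3
    fun j hj => ⟨(row (by omega) (by omega)).1, fun j' _ => by
      rw [ent_dg (by omega), vec_id]; split_ifs <;> simp⟩
  clear h1 h2 h3 A B h
  have ent_dg := @ent_dg L
  have ent_gl := @ent_gl L
  generalize hP : 12 * L.length = P at *
  have nz : ∀ p < P, a (P * p + p) ≠ 0 ∧ x (P * p + p) ≠ 0 := fun p hp => by
    obtain ⟨j, e, n⟩ := vec_ne p
    have r := (row hp hp).1
    have := mt (fun h => (R _ r _ r _ r 1 0 0).2 h j (by omega)) (by simpa [ent_dg hp] using n)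
    constructor <;> intro z <;> simp [z] at this
  have gl : ∀ p < P, ∀ q < P, lab L p = lab L q → p / 4 ≠ q / 4 →
      dt (a (P * p + p)) (a (P * q + q)) ≠ 0 → ∃ l : ℝ, x (P * q + q) = l • x (P * p + p) :=
    fun p hp q hq e n d => by
      obtain ⟨μ, ν, e1, e2, -⟩ := sum1 (a'' := a (P * p + q)) (x'' := x (P * p + q))
        (x := x (P * p + p)) (x' := x (P * q + q)) (fun s t => by
        linear_combination (R _ (row hp hq).1 _ (row hp hp).1 _ (row hq hq).1 1 (-1) (-1)).1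
          (fun j _ => by rw [ent_dg hp, ent_dg hq, ent_gl hp hq e n]; push_cast; ring) s t) d
      have : μ ≠ 0 := by rintro rfl; exact (nz p hp).2 (by simp [e1])
      exact ⟨ν / μ, by rw [e1, e2, smul_smul, div_mul_cancel₀ _ this]⟩
  have third : ∀ p < P, ∀ u v, ∃ r < P, lab L r = lab L p ∧ r / 4 ≠ u ∧ r / 4 ≠ v := fun p hp u v => by
    have k : ∀ c < 3, lab L (12 * (p / 12) + 4 * c + p % 4) = lab L p := fun c hc => by
      simp only [lab, show (12 * (p / 12) + 4 * c + p % 4) / 12 = p / 12 by omega,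
        show (12 * (p / 12) + 4 * c + p % 4) % 4 = p % 4 by omega]
    obtain ⟨c, hc, h⟩ : ∃ c < 3, 3 * (p / 12) + c ≠ u ∧ 3 * (p / 12) + c ≠ v := by
      by_contra n; push Not at n
      have := n 0; have := n 1; have := n 2; omega
    exact ⟨_, by omega, k c hc, by omega, by omega⟩
  have tri : ∀ p < P, ∀ q < P, lab L p = lab L q → p / 4 ≠ q / 4 →
      dt (a (P * p + p)) (a (P * q + q)) = 0 := fun p hp q hq e n => by
    by_contra d
    obtain ⟨r, hr, er, n1, n2⟩ := third p hp (p / 4) (q / 4)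
    obtain ⟨l, hl⟩ := gl p hp q hq e n d
    obtain ⟨κ, hκ⟩ : ∃ κ : ℝ, x (P * r + r) = κ • x (P * p + p) := by
      by_cases d1 : dt (a (P * p + p)) (a (P * r + r)) = 0
      · obtain ⟨κ, hκ⟩ := gl q hq r hr (e ▸ er.symm) n2.symm fun d2 => d (dt_tr (nz r hr).1 d1 d2)
        exact ⟨κ * l, by rw [hκ, hl, smul_smul]⟩
      · exact gl p hp r hr er.symm n1.symm d1
    obtain ⟨j, ej, nj⟩ := vec_ne r
    have := (R _ (row hp hp).1 _ (row hq hq).1 _ (row hr hr).1
      (dt (a (P * q + q)) (a (P * r + r)) * l * κ) (dt (a (P * r + r)) (a (P * p + p)) * κ)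
      (dt (a (P * p + p)) (a (P * q + q)) * l)).2 (Fin.forall_fin_two.2 ⟨fun t => by
        simp only [hl, hκ, dt, Pi.smul_apply, smul_eq_mul]; ring, fun t => by
        simp only [hl, hκ, dt, Pi.smul_apply, smul_eq_mul]; ring⟩) j (by omega)
    rw [ent_dg hp, ent_dg hq, ent_dg hr, vec, if_neg (by omega), vec, if_neg (by omega)] at this
    have l0 : l ≠ 0 := by rintro rfl; exact (nz q hq).2 (by simp [hl])
    simp [d, l0, nj] at this
  have same : ∀ p < P, ∀ q < P, lab L p = lab L q → dt (a (P * p + p)) (a (P * q + q)) = 0 :=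
    fun p hp q hq e => by
      obtain ⟨r, hr, er, n1, n2⟩ := third p hp (p / 4) (q / 4)
      exact dt_tr (nz r hr).1 (tri p hp r hr er.symm n1.symm) (tri q hq r hr (e ▸ er.symm) n2.symm)
  obtain ⟨Z, z0, z1⟩ : ∃ Z : ℕ → V2, (∀ s, Z s ≠ 0) ∧ ∀ p < P, ∃ κ : ℝ, κ ≠ 0 ∧
      ∀ s, a (P * p + p) s = κ * Z (lab L p) s := by
    refine ⟨fun s => if h : ∃ p < P, lab L p = s then a (P * h.choose + h.choose) else 1,
      fun s => ?_, fun p hp => ?_⟩
    · beta_reduce; split_ifs with h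
      exacts [(nz _ h.choose_spec.1).1, one_ne_zero]
    · have h : ∃ q < P, lab L q = lab L p := ⟨p, hp, rfl⟩
      simp only [dif_pos h]
      exact par (nz p hp).1 (nz _ h.choose_spec.1).1 (same p hp _ h.choose_spec.1 h.choose_spec.2.symm)
  refine ⟨Z, z0, fun q hq => ?_, fun b hb => ?_⟩
  · obtain ⟨c, hc, rfl⟩ := List.getElem_of_mem hq
    obtain ⟨l0, l1, l2, l3⟩ := labs (L := L) (3 * c)
    rw [show 3 * c / 3 = c by omega, List.getD_eq_getElem _ _ hc] at l0 l1 l2 l3
    have p0 : 4 * (3 * c) < P := by omega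
    have p1 : 4 * (3 * c) + 1 < P := by omega
    have p2 : 4 * (3 * c) + 2 < P := by omega
    have p3 : 4 * (3 * c) + 3 < P := by omega
    obtain ⟨k0, n0, e0⟩ := z1 _ p0
    obtain ⟨k1, n1, e1⟩ := z1 _ p1
    obtain ⟨k2, n2, e2⟩ := z1 _ p2
    obtain ⟨k3, n3, e3⟩ := z1 _ p3
    rw [← l0, ← l1, ← l2, ← l3]
    refine (line (nz _ p0).2 (nz _ p1).2 (nz _ p2).2 (nz _ p3).2 (fun s t => ?_)
      fun s t => ?_).scale n0 n1 n2 n3 e0 e1 e2 e3
    · linear_combination (R _ (row p2 p2).1 _ (row p0 p0).1 _ (row p1 p1).1 1 (-1) (-1)).1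
        (fun j _ => by
          rw [ent_dg p0, ent_dg p1, ent_dg p2]; norm_cast; unfold vec; split_ifs <;> omega) s t
    · rw [Pi.neg_apply]
      linear_combination (R _ (row p3 p3).1 _ (row p0 p0).1 _ (row p1 p1).1 1 (-1) 1).1
        (fun j _ => by
          rw [ent_dg p0, ent_dg p1, ent_dg p3]; norm_cast; unfold vec; split_ifs <;> omega) s t
  · obtain ⟨j, hj, n⟩ := N b hb
    obtain ⟨κ, -, e⟩ := z1 (4 * (j / 2) + j % 2) (by omega)
    have : dt (Z (lab L (4 * (j / 2) + j % 2))) b ≠ 0 := fun z => n (by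
      unfold dt at *; rw [e, e]; linear_combination κ * z)
    refine ⟨_, getD_mem (t := j / 2 / 3) (by omega), ?_⟩
    rcases Nat.mod_two_eq_zero_or_one j with h | h <;> rw [h] at this
    · exact .inl ((labs _).1 ▸ this)
    · exact .inr ((labs _).2.1 ▸ this)

theorem mat_c (h0 : 0 < L.length) (h : SH L) : HasHD (mat L) := by
  obtain ⟨Z, h⟩ := h
  choose! d c0 c1 c2 c3 n0 n1 n2 n3 e using fun (i : ℕ) (hi : i < 3 * L.length) =>
    h _ (getD_mem (t := i / 3) (by omega))
  simp only [← (labs _).1, ← (labs _).2.1, ← (labs _).2.2.1, ← (labs _).2.2.2] at d e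
  let c : ℕ → ℝ := fun p => if p % 4 = 0 then c0 (p / 4) else if p % 4 = 1 then c1 (p / 4) else
    if p % 4 = 2 then c2 (p / 4) else c3 (p / 4)
  let y : ℕ → V2 := fun j => if j % 2 = 0 then
    (c0 (j / 2) * dt (Z (lab L (4 * (j / 2)))) (Z (lab L (4 * (j / 2) + 1))))⁻¹ •
      ![Z (lab L (4 * (j / 2) + 1)) 1, -Z (lab L (4 * (j / 2) + 1)) 0] else
    (c1 (j / 2) * dt (Z (lab L (4 * (j / 2)))) (Z (lab L (4 * (j / 2) + 1))))⁻¹ •
      ![-Z (lab L (4 * (j / 2))) 1, Z (lab L (4 * (j / 2))) 0]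
  have key : ∀ p < 12 * L.length, ∀ j, (∑ s, Z (lab L p) s * y j s) *
      (if j / 2 = p / 4 then c p else 0) = vec p j := fun p hp j => by
    by_cases ej : j / 2 = p / 4
    swap; · simp [vec, ej]
    obtain ⟨i, r, hr, rfl⟩ : ∃ i r, r < 4 ∧ p = 4 * i + r := ⟨p / 4, p % 4, by omega, by omega⟩
    have hi : i < 3 * L.length := by omega
    have := d i hi; have := n0 i hi; have := n1 i hi
    have e0 := e i hi 0
    have e1 := e i hi 1
    have q1 : (4 * i + r) / 4 = i := by omega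
    have q2 : (4 * i + r) % 4 = r := by omega
    simp only [vec, y, c, ej, q1, q2, if_true, Fin.sum_univ_two]
    rcases Nat.mod_two_eq_zero_or_one j with h | h <;> interval_cases r <;> simp [h] <;>
      field_simp <;> unfold dt <;> grind
  let X : Matrix (Fin (12 * L.length * (12 * L.length))) (Fin 2) ℝ :=
    .of fun r => Z (lab L (r / (12 * L.length)))
  let Y : Matrix (Fin 2) (Fin (2 * (3 * L.length))) ℝ := .of fun s j => y j s
  let X' : Matrix (Fin (12 * L.length * (12 * L.length))) (Fin (3 * L.length)) ℝ := .of fun r t =>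
    (if t.1 = r.1 / (12 * L.length) / 4 then c (r / (12 * L.length)) else 0) +
    if lab L (r / (12 * L.length)) = lab L (r % (12 * L.length)) ∧
      r.1 / (12 * L.length) / 4 ≠ r.1 % (12 * L.length) / 4 then
      (if t.1 = r.1 % (12 * L.length) / 4 then c (r % (12 * L.length)) else 0) else 0
  let Y' : Matrix (Fin (3 * L.length)) (Fin (2 * (3 * L.length))) ℝ :=
    .of fun t j => if t = (⟨j / 2, by omega⟩ : Fin _) then 1 else 0
  have E : ∀ i j, (X * Y) i j * (X' * Y') i j = (ent L i j : ℝ) := fun i j => by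
    have a := key (i / (12 * L.length)) (Nat.div_lt_of_lt_mul i.2) j
    have b := key (i % (12 * L.length)) (Nat.mod_lt _ (by omega)) j
    simp only [Matrix.mul_apply, X, Y, X', Y', Matrix.of_apply, mul_ite, mul_one, mul_zero,
      Finset.sum_ite_eq', Finset.mem_univ, if_true, ent, mul_add] at a b ⊢
    rw [a]; push_cast
    split_ifs with h h'
    · rw [h.1, ← b, if_pos h']
    · rw [← b, if_neg h']
    · rfl
  have r1 := (Matrix.rank_mul_le_left X Y).trans X.rank_le_width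
  have r2 := (Matrix.rank_mul_le_left X' Y').trans X'.rank_le_width
  obtain ⟨a, x, D, hD⟩ := dec (X * Y) (X' * Y') rfl rfl
  have := (le_of_id D fun j => ⟨_, (hD ⟨_, (row (p := 4 * (j / 2) + j % 2) (q := 4 * (j / 2) + j % 2)
    (by omega) (by omega)).1⟩).trans (funext fun j' => by
      rw [E, ent_dg (by omega), vec_id]; simp [Pi.single_apply, Fin.ext_iff])⟩).2
  simp only [finrank_pi, Fintype.card_prod, Fintype.card_fin] at this
  exact (mat_iff L).2 ⟨_, _, by nlinarith, by nlinarith, E⟩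

end Pool.Agent.H38.Had
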