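import Pool.Agent.H38.Had.Mat

/-!
Polynomial systems as systems of harmonic quadruples.
-/

namespace Pool.Agent.H38.Had

open Pool.Agent.H38.NP Pool.Agent.H38.ER

def top (p : ℕ × List Q4) : List Q4 := [(0, 1, 2, 3)] ++ ((List.range p.1).flatMap fun i =>
    [(0, 1, 4 + 6 * i, 5 + 6 * i), (0, 1, 8 + 6 * i, 9 + 6 * i), (2, 3, 4 + 6 * i, 6 + 6 * i),
      (0, 5 + 6 * i, 7 + 6 * i, 1), (8 + 6 * i, 9 + 6 * i, 2, 4 + 6 * i)]) ++
  (List.range p.2.length).flatMap fun t =>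
    [(8 + 6 * (p.2.getD t (0, 0, 0, 0)).2.1, 9 + 6 * (p.2.getD t (0, 0, 0, 0)).2.1,
        6 + 6 * (p.2.getD t (0, 0, 0, 0)).1, 4 + 6 * p.1 + t),
      (4 + 6 * p.1 + t, 5 + 6 * (p.2.getD t (0, 0, 0, 0)).2.2.2,
        7 + 6 * (p.2.getD t (0, 0, 0, 0)).2.2.1, 1)]

theorem Gt.deg {a b c d o : V2} (h : Gt a b c d) (ha : a ≠ 0) (h1 : dt a o = 0) (h2 : dt b o = 0) :
    dt c o = 0 ∧ dt d o = 0 := by
  rcases h with ⟨-, c0, c1, c2, c3, -, -, n2, n3, e⟩ | ⟨-, e1, e2⟩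
  · have := e 0; have := e 1; unfold dt at *; grind
  · have := ne2.1 ha; unfold dt at *; grind

theorem Gt.map {a b c d o i : V2} (h : Gt a b c d) (n : dt o i ≠ 0) :
    Gt ![dt a o, dt a i] ![dt b o, dt b i] ![dt c o, dt c i] ![dt d o, dt d i] := by
  have k : ∀ x y : V2, dt ![dt x o, dt x i] ![dt y o, dt y i] = dt o i * dt x y := fun x y => by
    simp [dt]; ring
  rcases h with ⟨h, c0, c1, c2, c3, n0, n1, n2, n3, e⟩ | h
  · refine .inl ⟨by rw [k]; positivity, c0, c1, c2, c3, n0, n1, n2, n3, ?_⟩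
    have := e 0; have := e 1
    simp only [Fin.forall_fin_two, Matrix.cons_val_zero, Matrix.cons_val_one, dt]
    grind
  · exact .inr (by simp [k, h])

theorem Gt.neg {a b c d : V2} (h : Gt a b c d) (a0 : a 0 = 0) (a1 : a 1 ≠ 0) (b0 : b 0 ≠ 0)
    (b1 : b 1 = 0) : c 1 ≠ 0 ∧ d 1 ≠ 0 ∧ c 0 / c 1 ≠ 0 ∧ d 0 / d 1 = -(c 0 / c 1) := by
  rcases h with ⟨-, c0, c1, c2, c3, n0, n1, n2, n3, e⟩ | ⟨e, -⟩
  · have := e 0; have := e 1
    have : c 1 ≠ 0 := by grind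
    have : d 1 ≠ 0 := by grind
    grind
  · unfold dt at e; grind

theorem Gt.sq {a b c d : V2} (h : Gt a b c d) (hd : d ≠ 0) (a1 : a 1 ≠ 0) (b1 : b 1 ≠ 0)
    (a0 : a 0 / a 1 ≠ 0) (ab : b 0 / b 1 = -(a 0 / a 1)) (c1 : c 1 ≠ 0) (c0 : c 0 / c 1 ≠ 0) :
    d 1 ≠ 0 ∧ c 0 / c 1 * (d 0 / d 1) = (a 0 / a 1) ^ 2 := by
  obtain ⟨t, ht⟩ : ∃ t, t = a 0 / a 1 := ⟨_, rfl⟩
  obtain ⟨u, hu⟩ : ∃ u, u = c 0 / c 1 := ⟨_, rfl⟩
  rw [← ht] at a0 ab ⊢
  rw [← hu] at c0 ⊢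
  rw [eq_div_iff a1] at ht
  rw [eq_div_iff c1] at hu
  rw [div_eq_iff b1] at ab
  have := ne2.1 hd
  rcases h with ⟨-, k0, k1, k2, k3, n0, n1, n2, n3, e⟩ | ⟨e, -⟩
  · obtain ⟨e1, e2⟩ := e 0
    obtain ⟨e3, e4⟩ := e 1
    have k : u * d 0 = t ^ 2 * d 1 := mul_left_cancel₀ (mul_ne_zero (mul_ne_zero n2 n3) c1) (by
      rw [← ht, ab] at e1 e2
      linear_combination k2 * k3 * d 0 * hu + k3 * d 0 * e1 +
        t * (k0 * a 1 - k1 * b 1) * e2 - t ^ 2 * k3 * d 1 * e3 - t ^ 2 * (k0 * a 1 + k1 * b 1) * e4)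
    have : d 1 ≠ 0 := by grind
    exact ⟨this, by field_simp; linear_combination k⟩
  · unfold dt at e; grind

theorem Gt.mid {a b c d : V2} (h : Gt a b c d) (ha : a ≠ 0) (b1 : b 1 ≠ 0) (d0 : d 0 ≠ 0)
    (d1 : d 1 = 0) : a 1 ≠ 0 ∧ c 1 ≠ 0 ∧ 2 * (c 0 / c 1) = a 0 / a 1 + b 0 / b 1 := by
  have := ne2.1 ha
  rcases h with ⟨-, c0, c1, c2, c3, n0, n1, n2, n3, e⟩ | ⟨e, -, e'⟩
  · have := e 0; have := e 1
    have : a 1 ≠ 0 := by grind
    have : c 1 ≠ 0 := by grind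
    grind
  · unfold dt at e e'; grind

variable {n : ℕ} {c : List Q4}

theorem top_s (h0 : 0 < n) (hb : Bd n c) (h : WH (top (n, c))) : NZ (n, c) := by
  obtain ⟨A, nz, h, N⟩ := h
  simp only [top, List.forall_mem_append, List.forall_mem_flatMap, List.forall_mem_cons,
    List.mem_range, List.not_mem_nil, false_imp_iff, implies_true, and_true] at h
  obtain ⟨⟨g0, g1⟩, g2⟩ := h
  have d : dt (A 0) (A 1) ≠ 0 := fun d => by
    have z0 : dt (A 0) (A 0) = 0 := by simp [dt, mul_comm]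
    have z1 : dt (A 1) (A 0) = 0 := by unfold dt at *; linarith
    have z2 := g0.deg (nz _) z0 z1
    have z := fun i hi => And.intro ((g1 i hi).1.deg (nz _) z0 z1) ((g1 i hi).2.1.deg (nz _) z0 z1)
    have := N _ (nz 0)
    revert this
    simp only [imp_false, not_exists, not_and, not_or, not_not, top, List.forall_mem_append,
      List.forall_mem_flatMap, List.forall_mem_cons, List.mem_range, List.not_mem_nil,
      false_imp_iff, implies_true, and_true, z0, z1, z2, true_and]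
    refine ⟨fun i hi => by simp [z i hi], fun t ht => ?_⟩
    obtain ⟨b1, b2, b3, b4⟩ := hb _ (getD_mem ht)
    exact ⟨(z _ b2).2, ((g2 t ht).1.deg (nz _) (z _ b2).2.1 (z _ b2).2.2).2, (z _ b4).1.2⟩
  let Z : ℕ → V2 := fun s => ![dt (A s) (A 0), dt (A s) (A 1)]
  have zn : ∀ s, Z s ≠ 0 := fun s => ne2.2 (by
    by_contra k
    simp only [Z, Matrix.cons_val_zero, Matrix.cons_val_one, not_or, not_not] at k
    have := ne2.1 (nz s)
    unfold dt at *; grind)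
  have o0 : Z 0 0 = 0 := by simp [Z, dt, mul_comm]
  have o1 : Z 0 1 ≠ 0 := d
  have i1 : Z 1 1 = 0 := by simp [Z, dt, mul_comm]
  have i0 : Z 1 0 ≠ 0 := (ne2.1 (zn 1)).resolve_right (not_not.2 i1)
  obtain ⟨e1, e2, e3, e4⟩ := Gt.neg (a := Z 0) (b := Z 1) (c := Z 2) (d := Z 3) (g0.map d) o0 o1 i0 i1
  have x := fun i hi => Gt.neg (a := Z 0) (b := Z 1) (c := Z (4 + 6 * i)) (d := Z (5 + 6 * i))
    ((g1 i hi).1.map d) o0 o1 i0 i1
  have g := fun i hi => Gt.neg (a := Z 0) (b := Z 1) (c := Z (8 + 6 * i)) (d := Z (9 + 6 * i))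
    ((g1 i hi).2.1.map d) o0 o1 i0 i1
  have v := fun i hi => Gt.sq (a := Z 2) (b := Z 3) (c := Z (4 + 6 * i)) (d := Z (6 + 6 * i))
    ((g1 i hi).2.2.1.map d) (zn _) e1 e2 e3 e4 (x i hi).1 (x i hi).2.2.1
  have w := fun i hi => Gt.mid (a := Z 0) (b := Z (5 + 6 * i)) (c := Z (7 + 6 * i)) (d := Z 1)
    ((g1 i hi).2.2.2.1.map d) (zn _) (x i hi).2.1 i0 i1
  have r := fun i hi => Gt.sq (a := Z (8 + 6 * i)) (b := Z (9 + 6 * i)) (c := Z 2)
    (d := Z (4 + 6 * i)) ((g1 i hi).2.2.2.2.map d) (zn _) (g i hi).1 (g i hi).2.1 (g i hi).2.2.1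
      (g i hi).2.2.2 e1 e3
  refine ⟨fun i => Z (4 + 6 * i) 0 / Z (4 + 6 * i) 1 / (Z 2 0 / Z 2 1),
    div_ne_zero (x 0 h0).2.2.1 e3, fun q hq => ?_⟩
  simp only at hq
  obtain ⟨t, ht, et⟩ := List.getElem_of_mem hq
  obtain ⟨b1, b2, b3, b4⟩ := hb _ hq
  obtain ⟨p1, p2⟩ := g2 t ht
  rw [List.getD_eq_getElem _ _ ht, et] at p1 p2
  have v1 := (v _ b1).2
  have p3 := (Gt.sq (a := Z _) (b := Z _) (c := Z _) (d := Z _) (p1.map d) (zn _) (g _ b2).1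
    (g _ b2).2.1 (g _ b2).2.2.1 (g _ b2).2.2.2 (v _ b1).1 fun z => e3 (by simpa [z] using v1.symm)).2
  have p4 := (Gt.mid (a := Z _) (b := Z _) (c := Z _) (d := Z 1) (p2.map d) (zn _) (x _ b4).2.1 i0 i1).2.2
  have w1 := (w _ b3).2.2
  have r1 := (r _ b2).2
  rw [(x _ b4).2.2.2] at p4
  rw [(x _ b3).2.2.2, o0, zero_div] at w1
  generalize Z 2 0 / Z 2 1 = τ at *
  simp only
  generalize Z (4 + 6 * q.1) 0 / Z (4 + 6 * q.1) 1 = xa at *
  field_simp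
  refine mul_left_cancel₀ e3 ?_
  linear_combination xa * r1 - xa * p3 + (Z (4 + 6 * n + t) 0 / Z (4 + 6 * n + t) 1) * v1 +
    τ ^ 2 * (w1 - p4)

theorem top_c (hb : Bd n c) {u : ℕ → ℝ} (hu : ∀ i, 1 < u i) (hs : Sat u c) : SH (top (n, c)) := by
  let t : ℕ → ℝ := fun s => if s < 4 then (if s = 0 then 0 else if s = 2 then 1 else -1) else
    if s < 4 + 6 * n then (if s % 6 = 4 then u ((s - 4) / 6) else if s % 6 = 5 then -u ((s - 4) / 6)
      else if s % 6 = 0 then (u ((s - 4) / 6))⁻¹ else if s % 6 = 1 then -u ((s - 4) / 6) / 2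
      else if s % 6 = 2 then √(u ((s - 4) / 6)) else -√(u ((s - 4) / 6)))
    else u (c.getD (s - (4 + 6 * n)) (0, 0, 0, 0)).1 * u (c.getD (s - (4 + 6 * n)) (0, 0, 0, 0)).2.1
  let A : ℕ → V2 := fun s => if s = 1 then ![1, 0] else ![t s, 1]
  have x : ∀ i < n, A (4 + 6 * i) = ![u i, 1] ∧ A (5 + 6 * i) = ![-u i, 1] ∧
      A (6 + 6 * i) = ![(u i)⁻¹, 1] ∧ A (7 + 6 * i) = ![-u i / 2, 1] ∧
      A (8 + 6 * i) = ![√(u i), 1] ∧ A (9 + 6 * i) = ![-√(u i), 1] := fun i hi => by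
    simp (disch := omega) only [A, t, if_pos, if_neg, show (4 + 6 * i - 4) / 6 = i by omega,
      show (5 + 6 * i - 4) / 6 = i by omega, show (6 + 6 * i - 4) / 6 = i by omega,
      show (7 + 6 * i - 4) / 6 = i by omega, show (8 + 6 * i - 4) / 6 = i by omega,
      show (9 + 6 * i - 4) / 6 = i by omega, and_self]
  have y : ∀ s, A (4 + 6 * n + s) =
      ![u (c.getD s (0, 0, 0, 0)).1 * u (c.getD s (0, 0, 0, 0)).2.1, 1] := fun s => by
    simp (disch := omega) only [A, t, if_neg, Nat.add_sub_cancel_left]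
  have a0 : A 0 = ![0, 1] := rfl
  have a1 : A 1 = ![1, 0] := rfl
  have a2 : A 2 = ![1, 1] := rfl
  have a3 : A 3 = ![-1, 1] := rfl
  have ng : ∀ z : ℝ, z ≠ 0 → Hm ![0, 1] ![1, 0] ![z, 1] ![-z, 1] := fun z hz =>
    ⟨by simp [dt], 1, z, 1, 1, one_ne_zero, hz, one_ne_zero, one_ne_zero, by simp⟩
  have sq : ∀ g z w : ℝ, 0 < g → 0 < z → z ≠ g → z * w = g ^ 2 →
      Hm ![g, 1] ![-g, 1] ![z, 1] ![w, 1] := fun g z w hg hz n e =>
    ⟨by simp [dt, hg.ne'], g + z, g - z, 2 * g, 2 * z, by positivity, sub_ne_zero.2 n.symm,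
      by positivity, by positivity, by simp; grind⟩
  have md : ∀ p q h : ℝ, q < p → 2 * h = p + q → Hm ![p, 1] ![q, 1] ![h, 1] ![1, 0] :=
    fun p q h n e => ⟨by simpa [dt, sub_eq_zero] using n.ne', 1, 1, 2, p - q, one_ne_zero,
      one_ne_zero, two_ne_zero, sub_ne_zero.2 n.ne', by simp; grind⟩
  have p : ∀ i, 0 < u i := fun i => by linarith [hu i]
  have s1 : ∀ i, 1 < √(u i) := fun i => Real.lt_sqrt_of_sq_lt (by simpa using hu i)
  have s2 : ∀ i, √(u i) ^ 2 = u i := fun i => Real.sq_sqrt (p i).le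
  refine ⟨A, ?_⟩
  simp only [top, List.forall_mem_append, List.forall_mem_flatMap, List.forall_mem_cons,
    List.mem_range, List.not_mem_nil, false_imp_iff, implies_true, and_true, a0, a1, a2, a3, y]
  refine ⟨⟨ng 1 one_ne_zero, fun i hi => ?_⟩, fun s hs' => ?_⟩
  · simp only [x i hi]
    have := p i; have := s1 i
    exact ⟨ng _ (by positivity), ng _ (by positivity), sq _ _ _ one_pos (p i) (hu i).ne'
      (by field_simp), md _ _ _ (by linarith) (by ring), sq _ _ _ (by linarith) one_pos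
        (s1 i).ne (by rw [s2, one_mul])⟩
  · obtain ⟨b1, b2, b3, b4⟩ := hb _ (getD_mem hs')
    have e := hs _ (getD_mem hs')
    simp only [x _ b1, x _ b2, x _ b3, x _ b4]
    generalize c.getD s (0, 0, 0, 0) = q at *
    have := p q.1; have := s1 q.2.1; have := p q.2.1; have := p q.2.2.2
    exact ⟨sq _ _ _ (by linarith) (by positivity) ((inv_lt_one_of_one_lt₀ (hu _)).trans (s1 _)).ne
      (by rw [s2]; field_simp), md _ _ _ (by nlinarith) (by linarith)⟩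

theorem hd_erh : ERH (fun p => Inst p ∧ p.2.2.2.1.val = 2) HasHD := by
  refine pf_erh.reduce (fun p => mat (top p)) (pt_mat.comp (by unfold top; fun_prop)) ?_
  rintro ⟨n, c⟩ ⟨h0, hb, hp⟩
  have l : 0 < (top (n, c)).length := by simp [top]
  exact ⟨⟨mat_inst _, rfl⟩, fun h => let ⟨_, hu, hs⟩ := hp h; mat_c l (top_c hb hu hs),
    fun h => top_s h0 hb (mat_s l h)⟩

end Pool.Agent.H38.Had
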